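import Mathlib
import Pool.Agent.Helper52.PM.Tail

/-!
# Critical multicolour Poisson matchings in the plane never have tail `O(1 / (r log r))`

The definitions used in the statement (`Plane`, `CPt`, `Fam`, `Conf`, `typ`, `fdiam`, `famSigma`,
`confSigma`, `shiftFam`, `shiftConf`, `IsPoisson`, `IsScheme`, `coneOf`, `unitSq`, `palmTail`) are in
`Pool/Agent/Helper52/PM/Defs.lean`.
-/

set_option autoImplicit false

open MeasureTheory ProbabilityTheory Filter
open scoped ENNReal
open Pool.Agent.Helper52.PM

namespace Pool.Agent.Results.MP_47e84d_pr.NoLogTail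

/-- For every critical `(lam, V)` in the plane, every translation-invariant `V`-matching scheme
satisfies `limsup r log r P*(X > r) = ∞`. In particular no scheme satisfies
`P*(X > r) < C / (r log r)` for all large `r`, whatever the constant `C`
(see `Pool.Agent.Helper52.PM.no_bound`); quantitatively, `E* min(X, R) ≥ c √(log R)` for large `R`
(see `Pool.Agent.Helper52.PM.trunc_mean_lower`). -/
theorem result.{u} (q : ℕ) (lam : Fin q → ℝ) (V : Finset (Fin q → ℕ)) (hlam : ∀ i, 0 < lam i)
    (hcrit : lam ∈ frontier (coneOf V))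
    (Ω : Type u) [MeasurableSpace Ω] (P : Measure Ω) [IsProbabilityMeasure P]
    (Pi : Fin q → Ω → Set Plane) (M : Ω → Conf q) (hS : IsScheme P lam V Pi M) :
    limsup (fun r : ℝ => ENNReal.ofReal (r * Real.log r) * palmTail P lam Pi M r) atTop = ⊤ := by
  obtain ⟨c, hc, m0, hlow⟩ := palm_sum_lower.{u} hlam hcrit
  exact limsup_eq_top hS hlam hc (hlow Ω P Pi M hS)

end Pool.Agent.Results.MP_47e84d_pr.NoLogTail
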